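import Mathlib

namespace Pool.Agent.Results.MP_6ac4e5_co.SqrtTwoN

open Finset

/-- `A₁, …, A_m` are pairwise distinct and the numbers `|A_i ∩ A_j|`, `i < j`, are pairwise
different -/
def InterDistinct {n m : ℕ} (A : Fin m → Finset (Fin n)) : Prop :=
  Function.Injective A ∧ ∀ i j k l : Fin m, i < j → k < l →
    (A i ∩ A j).card = (A k ∩ A l).card → i = k ∧ j = l

/-- `f(n)` -/
noncomputable def f (n : ℕ) : ℕ := sSup {m : ℕ | ∃ A : Fin m → Finset (Fin n), InterDistinct A}

theorem upper {n m : ℕ} (A : Fin m → Finset (Fin n)) (h : InterDistinct A) :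
    m.choose 2 ≤ n + 1 := by
  have h1 := card_le_card_of_injOn (s := (univ ×ˢ univ : Finset (Fin m × Fin m)).filter
    (fun p => p.1 < p.2)) (t := range (n + 1)) (fun p => (A p.1 ∩ A p.2).card) (by
      intro p _
      have := card_le_univ (A p.1 ∩ A p.2)
      simp only [Fintype.card_fin] at this
      simp only [coe_range, Set.mem_Iio]; omega) (by
      intro p hp q hq e
      have := h.2 _ _ _ _ (mem_filter.1 hp).2 (mem_filter.1 hq).2 e
      exact Prod.ext this.1 this.2)
  rw [card_product_filter_lt] at h1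
  simpa using h1

def R (m i : ℕ) : ℕ := m - 2 + ∑ t ∈ range i, (m - 1 - t)

theorem R_succ (m i : ℕ) : R m (i + 1) = R m i + (m - 1 - i) := by
  rw [R, R, sum_range_succ, add_assoc]

theorem R_mono (m : ℕ) : Monotone (R m) :=
  monotone_nat_of_le_succ fun i => by rw [R_succ]; omega

theorem R_last (m : ℕ) (hm : 3 ≤ m) : R m (m - 2) + 3 = (m + 1).choose 2 := by
  have h1 := R_succ m (m - 2)
  have h2 : R m (m - 2 + 1 + 1) = R m (m - 2 + 1) := by rw [R_succ]; omega
  have h3 : R m (m - 2 + 1 + 1) = m - 2 + m.choose 2 := by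
    rw [show m - 2 + 1 + 1 = m by omega, R, sum_range_reflect (fun t => t) m, sum_range_id,
      Nat.choose_two_right]
  have h4 : (m + 1).choose 2 = m + m.choose 2 := by
    rw [Nat.choose_succ_succ, Nat.choose_one_right]
  omega

theorem card_I (n a b : ℕ) (h : b ≤ n) :
    (univ.filter (fun x : Fin n => a ≤ x.val ∧ x.val < b)).card = b - a := by
  rw [← Nat.card_Ico]
  apply card_nbij (fun x => x.val)
  · intro x hx; simpa using hx
  · intro x _ y _ e; exact Fin.ext e
  · intro x hx
    simp only [coe_Ico, Set.mem_Ico] at hx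
    exact ⟨⟨x, by omega⟩, by simpa using hx, rfl⟩

theorem lower (n m : ℕ) (hm : 3 ≤ m) (h : (m + 1).choose 2 ≤ n + 3) :
    ∃ A : Fin m → Finset (Fin n), InterDistinct A := by
  have hl := R_last m hm
  have hR : ∀ i, R m (min i (m - 2)) ≤ n := fun i =>
    (R_mono m (min_le_right _ _)).trans (by omega)
  have h0 : ∀ i, m - 2 ≤ R m i := fun i => Nat.le_add_right _ _
  let A : Fin m → Finset (Fin n) := fun i =>
    univ.filter (fun x : Fin n => i.val - 1 ≤ x.val ∧ x.val < R m (min i (m - 2)))
  have key : ∀ i j : Fin m, i < j → (A i ∩ A j).card = R m i - (j - 1) := by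
    intro i j hij
    have h1 : i.val < j.val := hij
    have h2 : min i.val (m - 2) = i.val := by omega
    have h3 := R_mono m (show i.val ≤ min j.val (m - 2) by omega)
    rw [← card_I n _ _ (h2 ▸ hR i)]
    congr 1
    ext x
    simp only [A, mem_inter, mem_filter, mem_univ, true_and, h2]
    omega
  have key2 : ∀ i j k l : Fin m, i < j → k < l → i < k →
      (A i ∩ A j).card < (A k ∩ A l).card := by
    intro i j k l h1 h2 h3
    rw [key i j h1, key k l h2]
    have h4 := R_mono m (show i.val + 1 ≤ k.val from h3)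
    rw [R_succ] at h4
    have := h0 i
    have : i.val < j.val := h1
    omega
  have key3 : ∀ i j : Fin m, i < j → A i ≠ A j := by
    intro i j hij e
    have h1 := key i j hij
    have h2 : i.val < j.val := hij
    have h3 := card_I n (i.val - 1) _ (hR i)
    have h4 := card_I n (j.val - 1) _ (hR j)
    change (A i).card = _ at h3
    change (A j).card = _ at h4
    rw [← e, inter_self] at h1
    rw [← e] at h4
    rw [show min i.val (m - 2) = i.val by omega] at h3
    have h5 := h0 i
    by_cases h6 : j.val = 1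
    · rw [show min j.val (m - 2) = i.val + 1 by omega, R_succ] at h4
      omega
    · omega
  refine ⟨A, fun i j e => ?_, fun i j k l h1 h2 e => ?_⟩
  · rcases lt_trichotomy i j with h | h | h
    · exact absurd e (key3 i j h)
    · exact h
    · exact absurd e.symm (key3 j i h)
  · rcases lt_trichotomy i k with h | h | h
    · exact absurd e (key2 i j k l h1 h2 h).ne
    · subst h
      rw [key i j h1, key i l h2] at e
      have := h0 i
      have : i.val < j.val := h1
      have : i.val < l.val := h2
      exact ⟨rfl, Fin.ext (by omega)⟩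
    · exact absurd e.symm (key2 k l i j h2 h1 h).ne

theorem both (n : ℕ) (hn : 1 ≤ n) : (f n).choose 2 ≤ n + 1 ∧ n + 3 < (f n + 2).choose 2 := by
  have hb : BddAbove {m : ℕ | ∃ A : Fin m → Finset (Fin n), InterDistinct A} := by
    refine ⟨2 ^ n, fun m ⟨A, hA⟩ => ?_⟩
    simpa using Fintype.card_le_of_injective A hA.1
  have h2 : 2 ∈ {m : ℕ | ∃ A : Fin m → Finset (Fin n), InterDistinct A} := by
    have : Nonempty (Fin n) := ⟨⟨0, hn⟩⟩
    refine ⟨![∅, univ], ?_, ?_⟩
    · intro i j e
      fin_cases i <;> fin_cases j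
      · rfl
      · exact absurd e.symm univ_nonempty.ne_empty
      · exact absurd e univ_nonempty.ne_empty
      · rfl
    · intro i j k l h1 h2 _
      omega
  constructor
  · obtain ⟨A, hA⟩ := Nat.sSup_mem ⟨2, h2⟩ hb
    exact upper A hA
  · by_contra hc
    have h3 : 2 ≤ f n := le_csSup hb h2
    have h4 : f n + 1 ≤ f n := le_csSup hb (lower n (f n + 1) (by omega) (not_lt.1 hc))
    omega

theorem result (n : ℕ) (hn : 1 ≤ n) : n + 3 < (f n + 2).choose 2 := (both n hn).2

end Pool.Agent.Results.MP_6ac4e5_co.SqrtTwoN
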